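import Pool.Agent.W361.LQ.Stm

/-!
# Project LQ: the dense sequence is computable with the oracle (LQ-NM)
-/

set_option autoImplicit false

namespace Pool.Agent.W585.LQ.NM

open Pool.Agent.Helper227 Pool.Agent.H685R3 Pool.Agent.W361.LQ

theorem p_raw : Primrec raw :=
  Primrec.option_getD.comp Primrec.decode (Primrec.const (0, 0, 0, []))

/-- the entry number `n` of a list -/
def ge (L : List (ℕ × ℕ)) (n : ℕ) : ℕ × ℕ := L.getD n (0, 0)

theorem p_ge : Primrec₂ ge := Primrec.list_getD (0, 0)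

theorem fl_true (T : ℕ → ℕ → Bool) (n s : ℕ) : fl T n s = true ↔ ∃ y, y < s ∧ T n y = true := by
  simp [fl]

theorem fl_false (T : ℕ → ℕ → Bool) (n s : ℕ) : fl T n s = false ↔ ∀ y < s, T n y = false := by
  simp [fl]

theorem nm_eq (T : ℕ → ℕ → Bool) (s : ℕ) (L L' : List (ℕ × ℕ)) :
    nm T s L = L' ↔ L'.length = L.length ∧ ∀ n < L.length,
      (ge L' n).1 = (ge L n).1 ∧ ((fl T n s = true ∧ (ge L' n).2 = (ge L n).2) ∨
        (fl T n s = false ∧ (ge L' n).2 = 0)) := by
  constructor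
  · rintro rfl
    refine ⟨by simp [nm], fun n hn => ?_⟩
    have h : ge (nm T s L) n = ((L.getD n (0, 0)).1, if fl T n s then (L.getD n (0, 0)).2 else 0) := by
      simp [ge, nm, List.getD_eq_getElem?_getD, hn]
    rw [h]
    refine ⟨rfl, ?_⟩
    cases hf : fl T n s
    · exact Or.inr ⟨rfl, by simp⟩
    · exact Or.inl ⟨rfl, by simp [ge]⟩
  · rintro ⟨hl, h⟩
    refine List.ext_getElem (by simp [nm, hl]) fun n h1 h2 => ?_
    have hn : n < L.length := by simpa [nm] using h1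
    obtain ⟨ha, hb⟩ := h n hn
    have e1 : ge L' n = L'[n] := by simp [ge, List.getD_eq_getElem?_getD, h2]
    rw [e1] at ha hb
    have e2 : (nm T s L)[n] = ((L.getD n (0, 0)).1, if fl T n s then (L.getD n (0, 0)).2 else 0) := by
      simp [nm]
    rw [e2]
    refine Prod.ext ha.symm ?_
    rcases hb with ⟨hf, hb⟩ | ⟨hf, hb⟩
    · simp only [hf, if_true]
      exact hb.symm
    · simp only [hf]
      exact hb.symm

theorem aux (D : ℕ → Bool) (T : ℕ → ℕ → Bool)
    (hT' : SI D fun x : ℕ × Bool => T x.1.unpair.1 x.1.unpair.2 = x.2) :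
    (SI D fun x : ℕ × ℕ => fl T x.1 x.2 = true) ∧ SI D fun x : ℕ × ℕ => fl T x.1 x.2 = false := by
  have hq : ∀ r : Bool, SI D fun z : (ℕ × ℕ) × ℕ => T z.1.1 z.2 = r := by
    intro r
    refine (hT'.comp (f := fun z : (ℕ × ℕ) × ℕ => (Nat.pair z.1.1 z.2, r)) ?_).of_eq ?_
    · exact (Primrec₂.natPair.comp (Primrec.fst.comp Primrec.fst) Primrec.snd).pair
          (Primrec.const r)
    · intro z
      simp
  constructor
  · have h1 : SI D fun x : ℕ × ℕ => ∃ y, y < x.2 ∧ T x.1 y = true := by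
      refine SI.ex (p := fun (x : ℕ × ℕ) (y : ℕ) => y < x.2 ∧ T x.1 y = true) ?_
      exact (SI.of_prim (Primrec.nat_lt.comp Primrec.snd
        (Primrec.snd.comp Primrec.fst))).and (hq true)
    exact h1.of_eq fun x => (fl_true T x.1 x.2).symm
  · have h1 : SI D fun x : ℕ × ℕ => ∀ y < x.2, T x.1 y = false :=
      SI.all_lt (α := ℕ × ℕ) (p := fun x y => T x.1 y = false) (f := fun x => x.2)
        (hq false) Primrec.snd
    exact h1.of_eq fun x => (fl_false T x.1 x.2).symm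

theorem aux2 {α : Type} [Primcodable α] (D : ℕ → Bool) (T : ℕ → ℕ → Bool)
    (hft : SI D fun x : ℕ × ℕ => fl T x.1 x.2 = true)
    (hff : SI D fun x : ℕ × ℕ => fl T x.1 x.2 = false) (s : α → ℕ) (L L' : α → List (ℕ × ℕ))
    (hs : Primrec s) (hL : Primrec L) (hL' : Primrec L') :
    SI D fun x : α => nm T (s x) (L x) = L' x := by
  have g1 : Primrec fun z : α × ℕ => ge (L z.1) z.2 :=
    p_ge.comp (hL.comp Primrec.fst) Primrec.snd
  have g2 : Primrec fun z : α × ℕ => ge (L' z.1) z.2 :=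
    p_ge.comp (hL'.comp Primrec.fst) Primrec.snd
  have hf1 : Primrec fun z : α × ℕ => (z.2, s z.1) :=
    Primrec.snd.pair (hs.comp Primrec.fst)
  have a3 : SI D fun x : α => (L' x).length = (L x).length :=
    SI.of_prim (Primrec.eq.comp (Primrec.list_length.comp hL') (Primrec.list_length.comp hL))
  have b1 : SI D fun z : α × ℕ => (ge (L' z.1) z.2).1 = (ge (L z.1) z.2).1 :=
    SI.of_prim (Primrec.eq.comp (Primrec.fst.comp g2) (Primrec.fst.comp g1))
  have b2 : SI D fun z : α × ℕ => (ge (L' z.1) z.2).2 = (ge (L z.1) z.2).2 :=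
    SI.of_prim (Primrec.eq.comp (Primrec.snd.comp g2) (Primrec.snd.comp g1))
  have b3 : SI D fun z : α × ℕ => (ge (L' z.1) z.2).2 = 0 :=
    SI.of_prim (Primrec.eq.comp (Primrec.snd.comp g2) (Primrec.const 0))
  have b4 : SI D fun z : α × ℕ => fl T z.2 (s z.1) = true := hft.comp hf1
  have b5 : SI D fun z : α × ℕ => fl T z.2 (s z.1) = false := hff.comp hf1
  have a4 : SI D fun x : α => ∀ n < (L x).length,
      (ge (L' x) n).1 = (ge (L x) n).1 ∧
        ((fl T n (s x) = true ∧ (ge (L' x) n).2 = (ge (L x) n).2) ∨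
          (fl T n (s x) = false ∧ (ge (L' x) n).2 = 0)) :=
    SI.all_lt (α := α) (p := fun x n => (ge (L' x) n).1 = (ge (L x) n).1 ∧
        ((fl T n (s x) = true ∧ (ge (L' x) n).2 = (ge (L x) n).2) ∨
          (fl T n (s x) = false ∧ (ge (L' x) n).2 = 0)))
      (f := fun x => (L x).length)
      (b1.and ((b4.and b2).or (b5.and b3))) (Primrec.list_length.comp hL)
  exact (a3.and a4).of_eq fun x => (nm_eq T (s x) (L x) (L' x)).symm

theorem aux3 {α : Type} [Primcodable α] (D : ℕ → Bool) (T : ℕ → ℕ → Bool)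
    (hft : SI D fun x : ℕ × ℕ => fl T x.1 x.2 = true)
    (hff : SI D fun x : ℕ × ℕ => fl T x.1 x.2 = false) (r : α → ℕ × ℕ × ℕ × List (ℕ × ℕ))
    (c : α → Cd) (hr : Primrec r) (hc : Primrec c) :
    SI D fun x : α => ((r x).1, (r x).2.1, nm T (r x).2.2.1 (r x).2.2.2) = c x := by
  have a1 : SI D fun x : α => (r x).1 = (c x).1 :=
    SI.of_prim (Primrec.eq.comp (Primrec.fst.comp hr) (Primrec.fst.comp hc))
  have a2 : SI D fun x : α => (r x).2.1 = (c x).2.1 :=
    SI.of_prim (Primrec.eq.comp (Primrec.fst.comp (Primrec.snd.comp hr))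
      (Primrec.fst.comp (Primrec.snd.comp hc)))
  have a3 : SI D fun x : α => nm T (r x).2.2.1 (r x).2.2.2 = (c x).2.2 :=
    aux2 D T hft hff (fun x => (r x).2.2.1) (fun x => (r x).2.2.2) (fun x => (c x).2.2)
      (Primrec.fst.comp (Primrec.snd.comp (Primrec.snd.comp hr)))
      (Primrec.snd.comp (Primrec.snd.comp (Primrec.snd.comp hr)))
      (Primrec.snd.comp (Primrec.snd.comp hc))
  refine (a1.and (a2.and a3)).of_eq fun x => ?_
  constructor
  · rintro ⟨h1, h2, h3⟩
    exact Prod.ext h1 (Prod.ext h2 h3)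
  · intro h
    rw [← h]
    exact ⟨rfl, rfl, rfl⟩

/-- LQ-NM -/
theorem main : S_NM := by
  intro D T hT
  have hT' := tLe_iff_SI.1 hT
  obtain ⟨h1, h2⟩ := aux D T hT'
  exact aux3 D T h1 h2 (fun x : ℕ × Cd => raw x.1) (fun x : ℕ × Cd => x.2)
    (p_raw.comp Primrec.fst) Primrec.snd

end Pool.Agent.W585.LQ.NM
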